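import Pool.Agent.Helper54.Pp.Stm3
import Pool.Agent.Helper66.PP54.NEAR

set_option autoImplicit false
set_option maxHeartbeats 1000000

/-! Package NEARV of PP54. -/

open Complex MeasureTheory Set Filter Topology Metric

namespace Pool.Agent.Helper66.PP54

open Pool.Agent.Helper54.Xm Pool.Agent.Helper54.Hf Pool.Agent.Helper54.Nt Pool.Agent.Helper54.Nm
open Pool.Agent.Helper54.Pp

theorem pNEARV (hFix : S_Fix) (hBS : S_BS) (hLine : S_Line) (hCone : S_Cone) (hUBF : S_UBF) :
    S_NearV := by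
  obtain ⟨T1, hT1, hU⟩ := hUBF
  refine ⟨1 / 1000, 2200, T1, by norm_num, by norm_num, hT1, ?_⟩
  intro T τ x0 ε V hT hτ hΛ1 hτV hV5 hε hε1 hx1 hx2 hMG w hw1 hw2 hw3
  set L := Real.log T with hL
  set a := τ * L with ha
  have hL1 : 1 ≤ L := by
    rw [hL, Real.le_log_iff_exp_le (by linarith)]
    have := Real.exp_one_lt_d9
    linarith
  have hL0 : 0 < L := by linarith
  have ha0 : 0 < a := mul_pos hτ hL0
  have hV0 : 0 < V := by linarith
  have hV1 : V ≤ 3 / 8 := by linarith
  have hτL : a ≤ 1 / 25 := by linarith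
  have haL : a * L = τ * L ^ 2 := by rw [ha]; ring
  -- the cone
  have hcone : ∀ p : ℂ, V ≤ p.re → p.re ≤ 3 / 4 → |p.im - x0| ≤ 60 * p.re →
      fx p ≠ 0 ∧ ‖psi fx p - L / 2‖ ≤ 2 * ε * L := by
    intro p h1 h2 h3
    obtain ⟨h4, h5⟩ := hCone ε T V x0 hV0 hV1 hMG p h1 h2 h3
    refine ⟨h4, h5.trans ?_⟩
    have h6 : L + p.re ≤ 2 * L := by linarith only [h2, hL1]
    have h7 := mul_le_mul_of_nonneg_left h6 hε.le
    linarith only [h7]
  -- points near the centre
  have hnear : ∀ c' p : ℂ, ∀ r : ℝ, ‖p - c'‖ ≤ r → |p.re - c'.re| ≤ r ∧ |p.im - c'.im| ≤ r := by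
    intro c' p r h
    constructor
    · have := Complex.abs_re_le_norm (p - c')
      rw [sub_re] at this; linarith
    · have := Complex.abs_im_le_norm (p - c')
      rw [sub_im] at this; linarith
  set c : ℂ := w - (a : ℝ) with hc
  have hcre : c.re = w.re - a := by simp [hc]
  have hcim : c.im = w.im := by simp [hc]
  have hw3' := abs_le.1 hw3
  have hball : ∀ p : ℂ, ‖p - c‖ ≤ 3 / 5 * a + a / 100 → V ≤ p.re ∧ p.re ≤ 3 / 4 ∧
      |p.im - x0| ≤ 60 * p.re := by
    intro p hp
    obtain ⟨h1, h2⟩ := hnear c p _ hp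
    rw [hcre] at h1
    rw [hcim] at h2
    rw [abs_le] at h1 h2
    obtain ⟨h1a, h1b⟩ := h1
    obtain ⟨h2a, h2b⟩ := h2
    refine ⟨by linarith, by linarith, ?_⟩
    rw [abs_le]
    constructor <;> linarith
  have hpt : ∀ p : ℂ, ‖p - c‖ ≤ 3 / 5 * a + a / 100 → fx p ≠ 0 ∧ ‖psi fx p - L / 2‖ ≤ 2 * ε * L := by
    intro p hp
    obtain ⟨h1, h2, h3⟩ := hball p hp
    exact hcone p h1 h2 h3
  -- the saddle point
  obtain ⟨q, hq1, hq2⟩ := hFix (fun p => w - 2 * τ * psi fx p) c (a / 25) (by positivity) (by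
      intro p hp
      rw [mem_ball, dist_eq_norm] at hp
      have h1 := (hpt p (by linarith)).1
      exact (((psi_diff fx_diff h1).const_mul (2 * (τ : ℂ))).const_sub w).differentiableWithinAt) (by
      intro p hp
      rw [mem_ball, dist_eq_norm] at hp
      have h1 := (hpt p (by linarith)).2
      have e : w - 2 * τ * psi fx p - c = -(2 * τ * (psi fx p - L / 2)) := by
        rw [hc, ha]; push_cast; ring
      rw [e, norm_neg, norm_mul]
      have h7 : ‖(2 : ℂ) * τ‖ = 2 * τ := by
        rw [norm_mul, Complex.norm_real, Real.norm_of_nonneg hτ.le]; norm_num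
      rw [h7]
      have h8 : 2 * τ * ‖psi fx p - L / 2‖ ≤ 2 * τ * (2 * ε * L) :=
        mul_le_mul_of_nonneg_left h1 (by positivity)
      refine h8.trans ?_
      have h9 : 2 * τ * (2 * ε * L) = 4 * ε * a := by rw [ha]; ring
      rw [h9]
      have h10 := mul_le_mul_of_nonneg_right hε1 ha0.le
      linarith only [h10, ha0])
  have hq1' : ‖q - c‖ ≤ a / 100 := by
    refine hq1.trans (le_of_eq ?_)
    ring
  obtain ⟨hqn, hqp⟩ := hpt q (by linarith)
  obtain ⟨hqre, hqim⟩ := hnear c q _ hq1'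
  rw [hcre] at hqre
  rw [hcim] at hqim
  have hqre' := abs_le.1 hqre
  have hqim' := abs_le.1 hqim
  have hqw : q - w = -(2 * τ * psi fx q) := by
    have h1 : w - 2 * τ * psi fx q = q := hq2
    linear_combination -h1
  -- the ball around `q`
  have hqb : ∀ z : ℂ, ‖z - q‖ ≤ 3 / 5 * a → fx z ≠ 0 ∧ ‖psi fx z - L / 2‖ ≤ 2 * ε * L := by
    intro z hz
    apply hpt
    have e : z - c = (z - q) + (q - c) := by ring
    rw [e]
    exact (norm_add_le _ _).trans (by linarith)
  have hder : ∀ z ∈ ball q (3 / 10 * a), ‖deriv (psi fx) z‖ ≤ 7 * ε / τ := by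
    intro z hz
    rw [mem_ball, dist_eq_norm] at hz
    have hρ : 0 < 3 / 10 * a := by positivity
    have hin : ∀ y ∈ closedBall z (3 / 10 * a), fx y ≠ 0 ∧ ‖psi fx y - L / 2‖ ≤ 2 * ε * L := by
      intro y hy
      rw [mem_closedBall, dist_eq_norm] at hy
      apply hqb
      have e : y - q = (y - z) + (z - q) := by ring
      rw [e]
      exact (norm_add_le _ _).trans (by linarith)
    have hd : DiffContOnCl ℂ (fun p => psi fx p - (L : ℂ) / 2) (ball z (3 / 10 * a)) := by
      apply DifferentiableOn.diffContOnCl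
      rw [closure_ball _ hρ.ne']
      intro y hy
      exact ((psi_diff fx_diff (hin y hy).1).sub_const _).differentiableWithinAt
    have h6 := Complex.norm_deriv_le_of_forall_mem_sphere_norm_le hρ hd (C := 2 * ε * L) (by
      intro y hy
      exact (hin y (sphere_subset_closedBall hy)).2)
    have h7 : deriv (fun p => psi fx p - (L : ℂ) / 2) z = deriv (psi fx) z := by
      rw [deriv_sub_const]
    rw [h7] at h6
    refine h6.trans ?_
    rw [ha, div_le_div_iff₀ (by positivity) hτ]
    have h10 := mul_pos (mul_pos hε hτ) hL0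
    linarith only [h10]
  have hR : 0 < 3 / 10 * a := by positivity
  have hS : 0 < 6 / 25 * a := by positivity
  -- the expansion
  have hexp : ∀ u : ℝ, |u| ≤ 6 / 25 * a → ∃ E : ℂ, ‖E‖ ≤ 7 * ε * (u ^ 2 / τ) ∧
      fx (q + I * u) = fx q * cexp (I * u * psi fx q + E) := by
    intro u hu
    have hnu : ‖q + I * u - q‖ = |u| := by
      rw [add_sub_cancel_left, norm_mul, Complex.norm_I, one_mul, Complex.norm_real,
        Real.norm_eq_abs]
    obtain ⟨E, hE1, hE2⟩ := expand fx_diff hR (fun z hz => (hqb z (by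
      rw [mem_ball, dist_eq_norm] at hz; linarith)).1) hder (z0 := q + I * u) (by
      rw [mem_ball, dist_eq_norm, hnu]; linarith)
    refine ⟨E, ?_, ?_⟩
    · rw [hnu, sq_abs] at hE1
      refine hE1.trans (le_of_eq ?_)
      ring
    · rw [hE2]
      congr 2
      ring
  have hup := hU T V x0 ε hT hV0 hV1 hε hε1 hx1 hx2 hMG q (by linarith) (by linarith) (by
    rw [abs_le]; constructor <;> linarith)
  have hτ1 : τ ≤ 1 := by
    have : τ ≤ τ * L := le_mul_of_one_le_right hτ.le hL1
    linarith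
  obtain ⟨hl1, hl2⟩ := hLine τ w q hτ hτ1
  have h125 : 125 * τ ≤ (6 / 25 * a) ^ 2 := by
    have e : (6 / 25 * a) ^ 2 = 36 / 625 * (τ * (τ * L ^ 2)) := by rw [ha]; ring
    rw [e]
    have h10 := mul_le_mul_of_nonneg_left hΛ1 hτ.le
    linarith only [h10, hτ]
  have him : |(psi fx q).im| ≤ 2 * ε * L := by
    have h1 := Complex.abs_im_le_norm (psi fx q - L / 2)
    have e : (psi fx q - (L : ℂ) / 2).im = (psi fx q).im := by
      have : ((L : ℂ) / 2).im = 0 := by
        have e2 : (L : ℂ) / 2 = ((L / 2 : ℝ) : ℂ) := by push_cast; ring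
        rw [e2, ofReal_im]
      rw [sub_im, this, sub_zero]
    rw [e] at h1
    exact h1.trans hqp
  have hre : L / 2 - 2 * ε * L ≤ (psi fx q).re := by
    have h1 := Complex.abs_re_le_norm (psi fx q - L / 2)
    have e : (psi fx q - (L : ℂ) / 2).re = (psi fx q).re - L / 2 := by
      have : ((L : ℂ) / 2).re = L / 2 := by
        have e2 : (L : ℂ) / 2 = ((L / 2 : ℝ) : ℂ) := by push_cast; ring
        rw [e2, ofReal_re]
      rw [sub_re, this]
    rw [e] at h1
    have h2 := (abs_le.1 (h1.trans hqp)).1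
    linarith
  obtain ⟨r1, r2, r3⟩ := hBS fx (Hx (-τ)) τ (7 * ε) (6 / 25 * a) (L / 40) w q hτ fx_diff.continuous
    hl1 hl2 hqn hqw (by positivity) (by linarith) hS h125 hexp (by
      intro u _
      refine (hup u).trans (le_of_eq ?_)
      congr 2
      ring) (by
      have h1 : 8 * τ * (|(psi fx q).im| + L / 40) ≤ 8 * τ * (2 * ε * L + L / 40) :=
        mul_le_mul_of_nonneg_left (by linarith) (by positivity)
      refine h1.trans ?_
      have e : 8 * τ * (2 * ε * L + L / 40) = 16 * ε * a + a / 5 := by rw [ha]; ring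
      rw [e]
      have h10 := mul_le_mul_of_nonneg_right hε1 ha0.le
      linarith only [h10, ha0])
  refine ⟨r1, q, ?_, ?_⟩
  · exact hq1'
  · refine le_trans ?_ r3
    have h1 : 1 ≤ Real.exp (((q - w) ^ 2 / (4 * τ)).re) := by
      apply Real.one_le_exp
      have e : (q - w) ^ 2 / (4 * τ) = (τ : ℂ) * (psi fx q) ^ 2 := by
        rw [hqw]
        have : (τ : ℂ) ≠ 0 := by exact_mod_cast hτ.ne'
        field_simp
        ring
      rw [e, Complex.re_ofReal_mul, sq, Complex.mul_re]
      apply mul_nonneg hτ.le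
      have h2 : |(psi fx q).im| ≤ (psi fx q).re := by
        refine him.trans (le_trans ?_ hre)
        have h10 := mul_le_mul_of_nonneg_right hε1 hL0.le
        linarith only [h10, hL0]
      have h3 := abs_le.1 h2
      have h10 := mul_nonneg (sub_nonneg.2 h3.2) (by linarith only [h3.1] : 0 ≤ (psi fx q).re + (psi fx q).im)
      linarith only [h10]
    have h4 : 0 ≤ 1 / 2 * ‖fx q‖ := by positivity
    exact le_mul_of_one_le_right h4 h1

end Pool.Agent.Helper66.PP54
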